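import Pool.Agent.H321R2.OSI.Counter
import Pool.Agent.H321R2.OSI.Lower
import Pool.Agent.H321R2.OSI.LowCoh

set_option autoImplicit false

/-!
# MP_082b65_an, Q1: constant failure probability does not give relative error `1 + O(ε)`

For every `δ ∈ (0,1]` there are a fixed matrix `A` and a fixed random test matrix `S` that is an
oblivious subspace injection with dimension `1`, injectivity `1` (hence injectivity `1 - ε` for
every `ε ≥ 0`) and failure probability `δ`, such that for EVERY outcome the error of the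
randomized SVD is larger than `(1 + δ³/1000) ‖A - A₁‖_F`.

Hence the bound of Q1 fails with probability one for all small `ε`, for every constant failure
probability (in particular `δ = 1/100`), whatever the constants; and in Q2 no exponent `c < 1/3`
is enough.
-/

namespace Pool.Agent.Results.MP_082b65_an.ConstantFailure

open MeasureTheory Matrix Finset Pool.Agent.H321R2.OSI

/-- The relative-error bound with constant `C` and success probability `p₀` for OSIs with failure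
probability `δ ε`: for every `ε ∈ (0,1)`, every real matrix `A` (`n × d`), every `1 ≤ r ≤ d` and
every OSI `S` with dimension `r`, injectivity `1 - ε` and failure probability `δ ε`, the randomized
SVD satisfies `‖A - Ã‖_F ≤ (1 + C ε) ‖A - A_r‖_F` with probability at least `p₀`. -/
def ErrBound (δ : ℝ → ℝ) (C p₀ : ℝ) : Prop :=
  ∀ ε : ℝ, 0 < ε → ε < 1 →
    ∀ (n d k r : ℕ), 1 ≤ r → r ≤ d → ∀ (A : Matrix (Fin n) (Fin d) ℝ)
      (W : Type) (_ : MeasurableSpace W) (P : Measure W) (_ : IsProbabilityMeasure P)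
      (S : W → Matrix (Fin d) (Fin k) ℝ), IsOSI P S r (1 - ε) (δ ε) →
        ∃ D : Set W, MeasurableSet D ∧ p₀ ≤ P.real D ∧
          ∀ w ∈ D, frob (A - rsvd A (S w)) ≤ (1 + C * ε) * bestErr A r

theorem example_exists (δ : ℝ) (hδ0 : 0 < δ) (hδ1 : δ ≤ 1) : ∃ (n k : ℕ) (A : Matrix (Fin n) (Fin n) ℝ)
    (W : Type) (_ : MeasurableSpace W) (P : Measure W) (_ : IsProbabilityMeasure P)
    (S : W → Matrix (Fin n) (Fin k) ℝ), 1 ≤ n ∧
      (∀ ε : ℝ, 0 ≤ ε → IsOSI P S 1 (1 - ε) δ) ∧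
      ∀ w, (1 + δ ^ 3 / 1000) * bestErr A 1 < frob (A - rsvd A (S w)) := by
  set K : ℕ := ⌈2 / δ⌉₊ with hK
  have hK1 : 2 / δ ≤ (K : ℝ) := Nat.le_ceil _
  have hK2 : (K : ℝ) < 2 / δ + 1 := Nat.ceil_lt_add_one (by positivity)
  have h2δ : 2 ≤ 2 / δ := by rw [le_div_iff₀ hδ0]; linarith
  have hK2' : 2 ≤ K := by
    have : (2 : ℝ) ≤ K := h2δ.trans hK1
    exact_mod_cast this
  have hKr : (2 : ℝ) ≤ K := by exact_mod_cast hK2'
  have hK0 : (0 : ℝ) < K := by linarith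
  have : NeZero K := ⟨by omega⟩
  have hδK : 2 ≤ δ * K := by
    rw [div_le_iff₀ hδ0] at hK1
    linarith
  have hKδ : K * δ ≤ 3 := by
    have h1 : K * δ < (2 / δ + 1) * δ := mul_lt_mul_of_pos_right hK2 hδ0
    have h2 : (2 / δ + 1) * δ = 2 + δ := by field_simp
    linarith
  set s : ℝ := Real.sqrt (1 / (2 * K ^ 3)) with hs
  have hssq : s ^ 2 = 1 / (2 * K ^ 3) := Real.sq_sqrt (by positivity)
  have hs0 : 0 < s := Real.sqrt_pos.2 (by positivity)
  have hK3 : (8 : ℝ) ≤ K ^ 3 := by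
    have := pow_le_pow_left₀ (by norm_num) hKr 3
    linarith
  have hs2' : s ^ 2 ≤ 1 / 16 := by
    rw [hssq]
    exact one_div_le_one_div_of_le (by norm_num) (by linarith)
  have hs1' : s ≤ 1 / 4 := by nlinarith
  have hs1 : s ≤ 1 := by linarith
  have hs2 : s ^ 2 ≤ 1 := by linarith
  obtain ⟨p, hp1, hp⟩ := Nat.exists_infinite_primes (⌈8 / s ^ 2⌉₊ + 1)
  have : Fact p.Prime := ⟨hp⟩
  have hpr : 8 / s ^ 2 ≤ (p : ℝ) := by
    have h1 : ((⌈8 / s ^ 2⌉₊ : ℕ) : ℝ) ≤ p := by exact_mod_cast (by omega : ⌈8 / s ^ 2⌉₊ ≤ p)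
    exact (Nat.le_ceil _).trans h1
  have hps : 8 ≤ (p : ℝ) * s ^ 2 := by
    rwa [div_le_iff₀ (by positivity)] at hpr
  obtain ⟨w, hw1, hw2, hw3⟩ := exists_lowcoh p
  have hN0 : 0 < p ^ 3 := pow_pos hp.pos 3
  have hNr : (0 : ℝ) < ((p ^ 3 : ℕ) : ℝ) := by exact_mod_cast hN0
  have hp1r : (1 : ℝ) ≤ p := by exact_mod_cast hp.one_lt.le
  have hpm : 2 / s ≤ (p : ℝ) - 1 := by
    rw [div_le_iff₀ hs0]
    nlinarith
  have hgram1 : ∀ j, gram (brow s w) j j = 1 := by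
    intro j
    refine Fin.cases ?_ (fun l => ?_) j
    · exact gram_brow_zero s w
    · rw [gram_brow_succ s hs2, hw1]; ring
  have hμ : ∀ j l, j ≠ l → |gram (brow s w) j l| ≤ s := by
    intro j l
    refine Fin.cases ?_ (fun j' => ?_) j
    · refine Fin.cases ?_ (fun l' => ?_) l
      · intro h; exact absurd rfl h
      · intro _
        rw [gram_brow_zero_succ, abs_of_pos hs0]
    · refine Fin.cases ?_ (fun l' => ?_) l
      · intro _
        rw [gram_symm, gram_brow_zero_succ, abs_of_pos hs0]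
      · intro h
        have hne : j' ≠ l' := fun h' => h (by rw [h'])
        rw [gram_brow_succ s hs2]
        have h1 := hw2 j' l' hne
        have h2 : (1 : ℝ) / ((p : ℝ) - 1) ≤ s / 2 := by
          have h3 : (0 : ℝ) < 2 / s := by positivity
          calc (1 : ℝ) / ((p : ℝ) - 1) ≤ 1 / (2 / s) := one_div_le_one_div_of_le h3 hpm
            _ = s / 2 := by field_simp
        have h3 : |∑ i, w j' i * w l' i| ≤ s / 2 := h1.trans h2
        have h4 : |s ^ 2 + (1 - s ^ 2) * ∑ i, w j' i * w l' i| ≤ s ^ 2 + (1 - s ^ 2) * (s / 2) := by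
          refine (abs_add_le _ _).trans ?_
          rw [abs_of_nonneg (sq_nonneg s), abs_mul, abs_of_nonneg (by linarith : 0 ≤ 1 - s ^ 2)]
          have := mul_le_mul_of_nonneg_left h3 (by linarith : 0 ≤ 1 - s ^ 2)
          linarith
        refine h4.trans ?_
        nlinarith
  have hμK : 2 * s ^ 2 * (K : ℝ) ^ 3 ≤ 1 := by
    rw [hssq]
    have : 2 * (1 / (2 * (K : ℝ) ^ 3)) * K ^ 3 = 1 := by field_simp
    rw [this]
  have hosi : ∀ ε : ℝ, 0 ≤ ε → IsOSI (unif (Smp K (p ^ 3 + 1))) (Smat K (brow s w)) 1 (1 - ε) δ :=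
    fun ε hε => isOSI_Smat hK2' (brow s w) hgram1 s hμ hμK δ hδK ε hε
  have hk : ((p ^ 2 : ℕ) : ℝ) + 1 ≤ ((p ^ 3 : ℕ) : ℝ) * s ^ 2 / 4 := by
    push_cast
    have h1 : (p : ℝ) ^ 2 * 8 ≤ (p : ℝ) ^ 2 * (p * s ^ 2) :=
      mul_le_mul_of_nonneg_left hps (by positivity)
    nlinarith
  refine ⟨p ^ 3 + 1, p ^ 2 + 1, diagonal (avec (p ^ 3)), Smp K (p ^ 3 + 1), inferInstance,
    unif (Smp K (p ^ 3 + 1)), inferInstance, Smat K (brow s w), by omega, hosi, ?_⟩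
  intro ω
  have h1 := err_lower hK2' s hs1 hs0 w hw3 hN0 hk ω
  have h2 := bestErr_le (p ^ 3)
  have h3 : (0 : ℝ) ≤ frob (diagonal (avec (p ^ 3)) - rsvd (diagonal (avec (p ^ 3))) (Smat K (brow s w) ω)) := by
    unfold frob; exact Real.sqrt_nonneg _
  have hκ : δ ^ 3 / 1000 ≤ s ^ 2 / 16 := by
    rw [hssq, div_div, div_le_div_iff₀ (by norm_num) (by positivity)]
    have h4 : (K * δ) ^ 3 ≤ 3 ^ 3 := pow_le_pow_left₀ (by positivity) hKδ 3
    rw [mul_pow] at h4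
    linarith
  have h4 : ((1 + s ^ 2 / 16) * Real.sqrt ((p ^ 3 : ℕ) : ℝ)) ^ 2 < ((p ^ 3 : ℕ) : ℝ) * (1 + s ^ 2 / 4) := by
    rw [mul_pow, Real.sq_sqrt hNr.le, mul_comm]
    refine mul_lt_mul_of_pos_left ?_ hNr
    have : 0 < s ^ 2 := by positivity
    nlinarith
  have h5 := abs_lt_of_sq_lt_sq (h4.trans_le h1) h3
  have hb : 0 ≤ bestErr (diagonal (avec (p ^ 3))) 1 := by
    unfold bestErr
    apply Real.sInf_nonneg
    rintro e ⟨B, _, rfl⟩
    exact Real.sqrt_nonneg _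
  calc (1 + δ ^ 3 / 1000) * bestErr (diagonal (avec (p ^ 3))) 1
      ≤ (1 + s ^ 2 / 16) * bestErr (diagonal (avec (p ^ 3))) 1 :=
        mul_le_mul_of_nonneg_right (by linarith) hb
    _ ≤ (1 + s ^ 2 / 16) * Real.sqrt ((p ^ 3 : ℕ) : ℝ) := mul_le_mul_of_nonneg_left h2 (by positivity)
    _ < _ := (abs_lt.1 h5).2

/-- A single `ε` at which the example beats the bound. -/
theorem refute (δ : ℝ → ℝ) (C p₀ : ℝ) (hp₀ : 0 < p₀) (ε : ℝ) (hε0 : 0 < ε) (hε1 : ε < 1)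
    (hδ0 : 0 < δ ε) (hδ1 : δ ε ≤ 1) (hC : C * ε ≤ δ ε ^ 3 / 1000) : ¬ ErrBound δ C p₀ := by
  intro h
  obtain ⟨n, k, A, W, mW, P, hP, S, hn, hosi, herr⟩ := example_exists (δ ε) hδ0 hδ1
  obtain ⟨D, _, hD1, hD2⟩ := h ε hε0 hε1 n n k 1 le_rfl hn A W mW P hP S (hosi ε hε0.le)
  have hne : D.Nonempty := by
    rw [Set.nonempty_iff_ne_empty]
    intro he
    rw [he, measureReal_empty] at hD1
    linarith
  obtain ⟨w, hw⟩ := hne
  have h1 := hD2 w hw
  have h2 := herr w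
  have hb : 0 ≤ bestErr A 1 := by
    unfold bestErr
    apply Real.sInf_nonneg
    rintro e ⟨B, _, rfl⟩
    exact Real.sqrt_nonneg _
  have h3 : (1 + C * ε) * bestErr A 1 ≤ (1 + δ ε ^ 3 / 1000) * bestErr A 1 :=
    mul_le_mul_of_nonneg_right (by linarith) hb
  linarith

theorem const_fails (δ₀ : ℝ) (h0 : 0 < δ₀) (h1 : δ₀ ≤ 1) (C p₀ : ℝ) (hp₀ : 0 < p₀) :
    ¬ ErrBound (fun _ => δ₀) C p₀ := by
  have hC : (0 : ℝ) < |C| + 1 := by positivity
  refine refute _ C p₀ hp₀ (min (1 / 2) ((δ₀ ^ 3 / 1000) / (|C| + 1))) (lt_min (by norm_num) (by positivity))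
    (lt_of_le_of_lt (min_le_left _ _) (by norm_num)) h0 h1 ?_
  have h2 : min (1 / 2) ((δ₀ ^ 3 / 1000) / (|C| + 1)) ≤ (δ₀ ^ 3 / 1000) / (|C| + 1) := min_le_right _ _
  have h3 : 0 < min (1 / 2) ((δ₀ ^ 3 / 1000) / (|C| + 1)) := lt_min (by norm_num) (by positivity)
  rw [le_div_iff₀ hC] at h2
  have h4 := le_abs_self C
  nlinarith

theorem power_fails (c : ℝ) (hc0 : 0 ≤ c) (hc : c < 1 / 3) (C p₀ : ℝ) (hp₀ : 0 < p₀) :
    ¬ ErrBound (fun ε => ε ^ c) C p₀ := by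
  have hC : (0 : ℝ) < 1000 * (|C| + 1) := by positivity
  have he : 0 < 1 - 3 * c := by linarith
  -- `ε^(1-3c) ≤ 1/(1000(|C|+1))`
  set ε : ℝ := (1 / (1000 * (|C| + 1))) ^ (1 / (1 - 3 * c)) with hε
  have hb0 : 0 < 1 / (1000 * (|C| + 1)) := by positivity
  have hb1 : 1 / (1000 * (|C| + 1)) < 1 := by
    rw [div_lt_one hC]
    have := abs_nonneg C
    linarith
  have hε0 : 0 < ε := Real.rpow_pos_of_pos hb0 _
  have hε1 : ε < 1 := Real.rpow_lt_one hb0.le hb1 (by positivity)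
  have hpow : ε ^ (1 - 3 * c) = 1 / (1000 * (|C| + 1)) := by
    rw [hε, ← Real.rpow_mul hb0.le, one_div_mul_cancel he.ne', Real.rpow_one]
  refine refute _ C p₀ hp₀ ε hε0 hε1 (Real.rpow_pos_of_pos hε0 c) (Real.rpow_le_one hε0.le hε1.le hc0) ?_
  have h1 : (ε ^ c) ^ 3 * ε ^ (1 - 3 * c) = ε := by
    rw [← Real.rpow_natCast, ← Real.rpow_mul hε0.le, ← Real.rpow_add hε0]
    push_cast
    rw [show c * 3 + (1 - 3 * c) = 1 by ring, Real.rpow_one]
  have h2 : ε = (ε ^ c) ^ 3 * (1 / (1000 * (|C| + 1))) := by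
    rw [← hpow, h1]
  have h3 : C * ε ≤ (|C| + 1) * ε := mul_le_mul_of_nonneg_right (by have := le_abs_self C; linarith) hε0.le
  refine h3.trans (le_of_eq ?_)
  conv_lhs => rw [h2]
  field_simp

theorem result :
    (∀ δ : ℝ, 0 < δ → δ ≤ 1 → ∃ (n k : ℕ) (A : Matrix (Fin n) (Fin n) ℝ)
      (W : Type) (_ : MeasurableSpace W) (P : Measure W) (_ : IsProbabilityMeasure P)
      (S : W → Matrix (Fin n) (Fin k) ℝ), 1 ≤ n ∧
        (∀ ε : ℝ, 0 ≤ ε → IsOSI P S 1 (1 - ε) δ) ∧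
        ∀ w, (1 + δ ^ 3 / 1000) * bestErr A 1 < frob (A - rsvd A (S w))) ∧
    (∀ C p₀ : ℝ, 0 < p₀ → ¬ ErrBound (fun _ => 1 / 100) C p₀) ∧
    (∀ δ₀ : ℝ, 0 < δ₀ → δ₀ ≤ 1 → ∀ C p₀ : ℝ, 0 < p₀ → ¬ ErrBound (fun _ => δ₀) C p₀) ∧
    (∀ c : ℝ, 0 ≤ c → c < 1 / 3 → ∀ C p₀ : ℝ, 0 < p₀ → ¬ ErrBound (fun ε => ε ^ c) C p₀) :=
  ⟨example_exists, const_fails (1 / 100) (by norm_num) (by norm_num), const_fails, power_fails⟩

end Pool.Agent.Results.MP_082b65_an.ConstantFailure
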